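import Mathlib

set_option autoImplicit false
open Finset
open scoped Classical

/-! Fon-der-Flaass 3-graphs: definitions, and the passage from the weighted count of ordered
triples to the count of edges. -/

namespace Pool.Agent.KS6_36.FDF

/-- An oriented graph: no loops, and at most one arc between two vertices. -/
def IsOriented {V : Type} (R : V → V → Prop) : Prop := ∀ u v, R u v → ¬ R v u

/-- There are no vertices `a, b, c, d` with arcs `a → b → c → d → a` and no arc between `a` and
`c` or between `b` and `d` (for an oriented graph such vertices are distinct). -/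
def NoInducedC4 {V : Type} (R : V → V → Prop) : Prop :=
  ¬ ∃ a b c d : V, R a b ∧ R b c ∧ R c d ∧ R d a ∧ ¬ R a c ∧ ¬ R c a ∧ ¬ R b d ∧ ¬ R d b

/-- The edges of the Fon-der-Flaass 3-graph: the triples with a vertex which has no arc to or
from the other two, or which has arcs to both others. -/
noncomputable def edges {V : Type} [Fintype V] (R : V → V → Prop) : Finset (Finset V) :=
  (Finset.univ.powersetCard 3).filter fun s : Finset V =>
    ∃ x ∈ s, (∀ y ∈ s, y ≠ x → (¬ R x y ∧ ¬ R y x)) ∨ (∀ y ∈ s, y ≠ x → R x y)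

/-- The number of arcs. -/
noncomputable def arcs {V : Type} [Fintype V] (R : V → V → Prop) : ℕ :=
  ((Finset.univ : Finset (V × V)).filter fun p => R p.1 p.2).card

theorem sum_triples {V : Type} [Fintype V] (G : Finset (Finset V)) (hG : ∀ s ∈ G, s.card = 3)
    (w : V → ℝ) :
    ∑ a : V, ∑ b : V, ∑ c : V, (if a ≠ b ∧ a ≠ c ∧ b ≠ c ∧ ({a, b, c} : Finset V) ∈ G then
      w a * w b * w c else 0) = 6 * ∑ s ∈ G, ∏ v ∈ s, w v := by
  set T : Finset (V × V × V) := univ.filter fun t =>
    t.1 ≠ t.2.1 ∧ t.1 ≠ t.2.2 ∧ t.2.1 ≠ t.2.2 ∧ ({t.1, t.2.1, t.2.2} : Finset V) ∈ G with hT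
  have e : ∑ a : V, ∑ b : V, ∑ c : V,
      (if a ≠ b ∧ a ≠ c ∧ b ≠ c ∧ ({a, b, c} : Finset V) ∈ G then w a * w b * w c else 0)
      = ∑ t ∈ T, w t.1 * w t.2.1 * w t.2.2 := by
    rw [hT, Finset.sum_filter, Fintype.sum_prod_type]
    refine sum_congr rfl fun a _ => ?_
    rw [Fintype.sum_prod_type]
  rw [e, ← Finset.sum_fiberwise_of_maps_to (t := G)
    (g := fun t : V × V × V => ({t.1, t.2.1, t.2.2} : Finset V))
    (fun t ht => (mem_filter.mp ht).2.2.2.2), mul_sum]
  refine sum_congr rfl fun s hs => ?_
  obtain ⟨x, y, z, hxy, hxz, hyz, rfl⟩ := Finset.card_eq_three.mp (hG s hs)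
  have e2 : (T.filter fun t => ({t.1, t.2.1, t.2.2} : Finset V) = {x, y, z}) =
      {(x, y, z), (x, z, y), (y, x, z), (y, z, x), (z, x, y), (z, y, x)} := by
    ext ⟨a, b, c⟩
    constructor
    · intro ht
      rw [mem_filter] at ht
      obtain ⟨ht, hs'⟩ := ht
      obtain ⟨-, h1, h2, h3, -⟩ := mem_filter.mp ht
      simp only at hs' h1 h2 h3
      have ha : a ∈ ({x, y, z} : Finset V) := by rw [← hs']; simp
      have hb : b ∈ ({x, y, z} : Finset V) := by rw [← hs']; simp
      have hc : c ∈ ({x, y, z} : Finset V) := by rw [← hs']; simp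
      simp only [mem_insert, mem_singleton] at ha hb hc
      rcases ha with ha | ha | ha <;> rcases hb with hb | hb | hb <;>
        rcases hc with hc | hc | hc <;> simp_all
    · intro ht
      have key : ∀ a b c : V, a ≠ b → a ≠ c → b ≠ c → ({a, b, c} : Finset V) = {x, y, z} →
          (a, b, c) ∈ T.filter fun t => ({t.1, t.2.1, t.2.2} : Finset V) = {x, y, z} := by
        intro a b c h1 h2 h3 h4
        rw [mem_filter, hT, mem_filter]
        refine ⟨⟨mem_univ _, h1, h2, h3, ?_⟩, h4⟩
        simp only
        rw [h4]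
        exact hs
      simp only [mem_insert, mem_singleton, Prod.mk.injEq] at ht
      rcases ht with ⟨rfl, rfl, rfl⟩ | ⟨rfl, rfl, rfl⟩ | ⟨rfl, rfl, rfl⟩ | ⟨rfl, rfl, rfl⟩ |
        ⟨rfl, rfl, rfl⟩ | ⟨rfl, rfl, rfl⟩
      · exact key _ _ _ hxy hxz hyz rfl
      · exact key _ _ _ hxz hxy hyz.symm (by ext u; simp; tauto)
      · exact key _ _ _ hxy.symm hyz hxz (by ext u; simp; tauto)
      · exact key _ _ _ hyz hxy.symm hxz.symm (by ext u; simp; tauto)
      · exact key _ _ _ hxz.symm hyz.symm hxy (by ext u; simp; tauto)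
      · exact key _ _ _ hyz.symm hxz.symm hxy.symm (by ext u; simp; tauto)
  rw [e2, Finset.prod_insert (by simp [hxy, hxz]), Finset.prod_insert (by simp [hyz]),
    Finset.prod_singleton]
  rw [Finset.sum_insert, Finset.sum_insert, Finset.sum_insert, Finset.sum_insert,
    Finset.sum_insert, Finset.sum_singleton]
  · ring
  all_goals
    simp only [mem_insert, mem_singleton, Prod.mk.injEq, not_or, not_and]
    try tauto

/-- indicator of the arc `x → y` -/
noncomputable def A {V : Type} (R : V → V → Prop) (x y : V) : ℝ := if R x y then 1 else 0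

/-- indicator of non-adjacency (a vertex is non-adjacent to itself) -/
noncomputable def N {V : Type} (R : V → V → Prop) (x y : V) : ℝ := if R x y ∨ R y x then 0 else 1

/-- indicator of an edge (repeated vertices are treated as non-adjacent clones) -/
noncomputable def H {V : Type} (R : V → V → Prop) (a b c : V) : ℝ :=
  N R a b * N R a c + N R a b * N R b c * (1 - N R a c) + N R a c * N R b c * (1 - N R a b)
    + A R a b * A R a c + A R b a * A R b c + A R c a * A R c b

variable {V : Type} [Fintype V] (R : V → V → Prop) (w : V → ℝ)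

theorem mem_edges {a b c : V} (hab : a ≠ b) (hac : a ≠ c) (hbc : b ≠ c) :
    ({a, b, c} : Finset V) ∈ edges R ↔
      ((¬ R a b ∧ ¬ R b a) ∧ (¬ R a c ∧ ¬ R c a)) ∨ ((¬ R a b ∧ ¬ R b a) ∧ (¬ R b c ∧ ¬ R c b)) ∨
      ((¬ R a c ∧ ¬ R c a) ∧ (¬ R b c ∧ ¬ R c b)) ∨ (R a b ∧ R a c) ∨ (R b a ∧ R b c) ∨
      (R c a ∧ R c b) := by
  unfold edges
  rw [mem_filter, mem_powersetCard]
  have hc : ({a, b, c} : Finset V) ⊆ univ ∧ ({a, b, c} : Finset V).card = 3 :=
    ⟨subset_univ _, Finset.card_eq_three.mpr ⟨a, b, c, hab, hac, hbc, rfl⟩⟩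
  simp only [hc, true_and, mem_insert, mem_singleton, exists_eq_or_imp, exists_eq_left,
    forall_eq_or_imp, forall_eq, ne_eq, not_true_eq_false, false_implies, hab, hac, hbc,
    hab.symm, hac.symm, hbc.symm, not_false_eq_true, true_implies, and_true]
  tauto

theorem H_eq (hO : IsOriented R) (a b c : V) :
    H R a b c = (if a ≠ b ∧ a ≠ c ∧ b ≠ c ∧ ({a, b, c} : Finset V) ∈ edges R then 1 else 0)
      + (if a = b then (1 - A R a c) else 0) + (if a = c then (1 - A R a b) else 0)
      + (if b = c then (1 - A R b a) else 0) - 2 * (if a = b ∧ a = c then 1 else 0) := by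
  have hirr : ∀ x, ¬ R x x := fun x hx => hO x x hx hx
  by_cases hab : a = b
  · subst hab
    by_cases hac : a = c
    · subst hac
      unfold H N A
      simp [hirr]
      norm_num
    · have h1 := hO a c
      unfold H N A
      simp only [hirr, hac, ne_eq, not_true_eq_false, false_and, if_false, if_true, and_false,
        or_self, or_false]
      by_cases r1 : R a c <;> by_cases r2 : R c a <;> simp_all
  · by_cases hac : a = c
    · subst hac
      have hba : ¬ b = a := fun h => hab h.symm
      have h1 := hO a b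
      unfold H N A
      simp only [hirr, hab, hba, ne_eq, not_true_eq_false, false_and, and_false, if_false, if_true,
        or_self]
      by_cases r1 : R a b <;> by_cases r2 : R b a <;> simp_all
    · by_cases hbc : b = c
      · subst hbc
        have h1 := hO a b
        unfold H N A
        simp only [hirr, hab, ne_eq, not_true_eq_false, false_and, and_false, if_false, if_true,
          or_self]
        by_cases r1 : R a b <;> by_cases r2 : R b a <;> simp_all
      · have hm := mem_edges R hab hac hbc
        have h1 := hO a b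
        have h2 := hO a c
        have h3 := hO b c
        unfold H N A
        simp only [hab, hac, hbc, ne_eq, not_false_eq_true, true_and, if_false, false_and, hm]
        by_cases r1 : R a b <;> by_cases r2 : R b a <;> by_cases r3 : R a c <;>
          by_cases r4 : R c a <;> by_cases r5 : R b c <;> by_cases r6 : R c b <;> simp_all

theorem sum_H (hO : IsOriented R) :
    ∑ a, ∑ b, ∑ c, w a * w b * w c * H R a b c =
      6 * ∑ s ∈ edges R, ∏ v ∈ s, w v + 3 * ∑ u, ∑ v, w u ^ 2 * w v * (1 - A R u v)
        - 2 * ∑ v, w v ^ 3 := by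
  have h1 := sum_triples (edges R)
    (fun s hs => (mem_powersetCard.mp (mem_filter.mp hs).1).2) w
  rw [← h1]
  have e : ∀ a b c, w a * w b * w c * H R a b c =
      (if a ≠ b ∧ a ≠ c ∧ b ≠ c ∧ ({a, b, c} : Finset V) ∈ edges R then w a * w b * w c else 0)
      + (if a = b then w a ^ 2 * w c * (1 - A R a c) else 0)
      + (if a = c then w a ^ 2 * w b * (1 - A R a b) else 0)
      + (if b = c then w b ^ 2 * w a * (1 - A R b a) else 0)
      - 2 * (if a = b ∧ a = c then w a ^ 3 else 0) := by
    intro a b c
    rw [H_eq R hO]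
    have c1 : w a * w b * w c * (if a = b then (1 - A R a c) else 0) =
        (if a = b then w a ^ 2 * w c * (1 - A R a c) else 0) := by
      split_ifs with h
      · subst h; ring
      · ring
    have c2 : w a * w b * w c * (if a = c then (1 - A R a b) else 0) =
        (if a = c then w a ^ 2 * w b * (1 - A R a b) else 0) := by
      split_ifs with h
      · subst h; ring
      · ring
    have c3 : w a * w b * w c * (if b = c then (1 - A R b a) else 0) =
        (if b = c then w b ^ 2 * w a * (1 - A R b a) else 0) := by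
      split_ifs with h
      · subst h; ring
      · ring
    have c4 : w a * w b * w c * (if a = b ∧ a = c then (1 : ℝ) else 0) =
        (if a = b ∧ a = c then w a ^ 3 else 0) := by
      split_ifs with h
      · rw [← h.1, ← h.2]; ring
      · ring
    have c5 : w a * w b * w c * (if a ≠ b ∧ a ≠ c ∧ b ≠ c ∧ ({a, b, c} : Finset V) ∈ edges R
        then (1 : ℝ) else 0) = (if a ≠ b ∧ a ≠ c ∧ b ≠ c ∧ ({a, b, c} : Finset V) ∈ edges R
        then w a * w b * w c else 0) := by
      split_ifs <;> ring
    rw [← c1, ← c2, ← c3, ← c4, ← c5]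
    ring
  simp_rw [e]
  simp only [Finset.sum_add_distrib, Finset.sum_sub_distrib, ← Finset.mul_sum]
  have d1 : ∑ a : V, ∑ b : V, ∑ c : V, (if a = b then w a ^ 2 * w c * (1 - A R a c) else 0) =
      ∑ u, ∑ v, w u ^ 2 * w v * (1 - A R u v) := by
    refine sum_congr rfl fun a _ => ?_
    rw [sum_comm]
    refine sum_congr rfl fun c _ => ?_
    simp
  have d2 : ∑ a : V, ∑ b : V, ∑ c : V, (if a = c then w a ^ 2 * w b * (1 - A R a b) else 0) =
      ∑ u, ∑ v, w u ^ 2 * w v * (1 - A R u v) := by
    refine sum_congr rfl fun a _ => ?_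
    refine sum_congr rfl fun c _ => ?_
    simp
  have d3 : ∑ a : V, ∑ b : V, ∑ c : V, (if b = c then w b ^ 2 * w a * (1 - A R b a) else 0) =
      ∑ u, ∑ v, w u ^ 2 * w v * (1 - A R u v) := by
    rw [sum_comm]
    refine sum_congr rfl fun b _ => ?_
    refine sum_congr rfl fun a _ => ?_
    simp
  have d4 : ∑ a : V, ∑ b : V, ∑ c : V, (if a = b ∧ a = c then w a ^ 3 else 0) =
      ∑ v, w v ^ 3 := by
    refine sum_congr rfl fun a _ => ?_
    rw [sum_eq_single a, sum_eq_single a]
    · simp
    · intro c _ hc
      simp [Ne.symm hc]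
    · simp
    · intro b _ hb
      simp [Ne.symm hb]
    · simp
  rw [d1, d2, d3, d4]
  ring

end Pool.Agent.KS6_36.FDF
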