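import Pool.Agent.KS6_36.FDF.Base
import Pool.Graph.R_seed8.H122R2.FdF.Main

set_option autoImplicit false
open Finset
open scoped Classical

/-! The sharp weighted inequality. -/

namespace Pool.Agent.KS6_36.FDF

theorem T_bound {V : Type} [Fintype V] (R : V → V → Prop) (hO : IsOriented R)
    (hC : NoInducedC4 R) (w : V → ℝ) (hw : ∀ v, 0 ≤ w v) :
    4 / 9 * (∑ v, w v) ^ 3 ≤ ∑ a, ∑ b, ∑ c, w a * w b * w c * H R a b c := by
  have hO' : Pool.Agent.H122R2.FdF.Oriented R := hO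
  have hC' : Pool.Agent.H122R2.FdF.C4Free R := by
    intro a b c d h1 h2 h3 h4
    by_contra hne
    push Not at hne
    exact hC ⟨a, b, c, d, h1, h2, h3, h4, hne.1, hne.2.1, hne.2.2.1, hne.2.2.2⟩
  set S := ∑ v, w v with hS
  have hS0 : 0 ≤ S := sum_nonneg fun v _ => hw v
  rcases hS0.eq_or_lt with h0 | hpos
  · have hz : ∀ v, w v = 0 := fun v =>
      (Finset.sum_eq_zero_iff_of_nonneg (fun v _ => hw v)).1 h0.symm v (mem_univ v)
    rw [← h0]
    simp [hz]
  · have h1 := Pool.Agent.H122R2.FdF.main_weighted R (fun v => w v / S) hO' hC'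
      (fun v => div_nonneg (hw v) hS0) (by rw [← Finset.sum_div, ← hS, div_self hpos.ne'])
    have h2 : Pool.Agent.H122R2.FdF.T R (fun v => w v / S) * S ^ 3 =
        ∑ a, ∑ b, ∑ c, w a * w b * w c * H R a b c := by
      unfold Pool.Agent.H122R2.FdF.T
      simp only [sum_mul]
      refine sum_congr rfl fun a _ => sum_congr rfl fun b _ => sum_congr rfl fun c _ => ?_
      have : H R a b c = Pool.Agent.H122R2.FdF.H R a b c := rfl
      rw [this]
      field_simp
    rw [← h2]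
    exact mul_le_mul_of_nonneg_right h1 (by positivity)

/-- The weighted inequality. -/
theorem weighted {V : Type} [Fintype V] (R : V → V → Prop) (hO : IsOriented R)
    (hC : NoInducedC4 R) (w : V → ℝ) (hw : ∀ v, 0 ≤ w v) :
    4 / 9 * (∑ v, w v) ^ 3 ≤ 6 * ∑ s ∈ edges R, ∏ v ∈ s, w v
      + 3 * ∑ u, ∑ v, (if u ≠ v ∧ ¬ R u v then w u ^ 2 * w v else 0) + ∑ v, w v ^ 3 := by
  have h1 := T_bound R hO hC w hw
  rw [sum_H R w hO] at h1
  have h2 : ∑ u, ∑ v, w u ^ 2 * w v * (1 - A R u v) =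
      ∑ u, ∑ v, (if u ≠ v ∧ ¬ R u v then w u ^ 2 * w v else 0) + ∑ v, w v ^ 3 := by
    rw [← sum_add_distrib]
    refine sum_congr rfl fun u _ => ?_
    have e : ∀ v, w u ^ 2 * w v * (1 - A R u v) =
        (if u ≠ v ∧ ¬ R u v then w u ^ 2 * w v else 0) + (if u = v then w u ^ 3 else 0) := by
      intro v
      unfold A
      by_cases huv : u = v
      · subst huv
        have : ¬ R u u := fun h => hO u u h h
        simp [this]
        ring
      · by_cases hr : R u v <;> simp [huv, hr]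
    simp_rw [e]
    rw [sum_add_distrib]
    congr 1
    simp
  rw [h2] at h1
  linarith

theorem sum_arcs {V : Type} [Fintype V] (R : V → V → Prop) :
    ∑ u, ∑ v, ((1 : ℝ) ^ 2 * 1 * (1 - A R u v)) =
      (Fintype.card V : ℝ) ^ 2 - (arcs R : ℝ) := by
  have e : (arcs R : ℝ) = ∑ u, ∑ v, A R u v := by
    unfold arcs A
    rw [Finset.card_filter, Nat.cast_sum, Fintype.sum_prod_type]
    refine sum_congr rfl fun u _ => sum_congr rfl fun v _ => ?_
    split_ifs <;> simp
  rw [e]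
  simp only [one_pow, one_mul, sum_sub_distrib, sum_const, card_univ, nsmul_eq_mul, mul_one]
  ring

/-- The count of ordered triples for the constant weight. -/
theorem sum_one {V : Type} [Fintype V] (R : V → V → Prop) (hO : IsOriented R) :
    ∑ a : V, ∑ b : V, ∑ c : V, H R a b c = 6 * ((edges R).card : ℝ)
      + 3 * (Fintype.card V : ℝ) ^ 2 - 3 * (arcs R : ℝ) - 2 * (Fintype.card V : ℝ) := by
  have h := sum_H R (fun _ => (1 : ℝ)) hO
  rw [sum_arcs] at h
  simp only [one_pow, one_mul, prod_const_one, sum_const, nsmul_eq_mul, mul_one, card_univ] at h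
  rw [h]
  ring

/-- The inequality for the number of edges. -/
theorem unweighted {V : Type} [Fintype V] (R : V → V → Prop) (hO : IsOriented R)
    (hC : NoInducedC4 R) :
    2 / 27 * (Fintype.card V : ℝ) ^ 3 - (Fintype.card V : ℝ) ^ 2 / 2 + (Fintype.card V : ℝ) / 3
      + (arcs R : ℝ) / 2 ≤ ((edges R).card : ℝ) := by
  have h1 := T_bound R hO hC (fun _ => (1 : ℝ)) (fun _ => zero_le_one)
  simp only [one_mul] at h1
  rw [sum_one R hO] at h1
  simp only [sum_const, card_univ, nsmul_eq_mul, mul_one] at h1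
  linarith

/-- The balanced blow-up of the cyclic triangle, with parts of size `m`. -/
def cyc (m : ℕ) (u v : Fin 3 × Fin m) : Prop := v.1 = u.1 + 1

theorem cyc_oriented (m : ℕ) : IsOriented (cyc m) := by
  intro u v h1 h2
  unfold cyc at h1 h2
  rw [h1] at h2
  revert h2
  generalize u.1 = x
  revert x
  decide

theorem cyc_c4 (m : ℕ) : NoInducedC4 (cyc m) := by
  rintro ⟨a, b, c, d, h1, h2, h3, h4, -, h6, -, -⟩
  unfold cyc at *
  rw [h3, h2, h1] at h4
  rw [h2, h1] at h6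
  revert h4 h6
  generalize a.1 = x
  revert x
  decide

theorem sum_fst (m : ℕ) (g : Fin 3 → ℝ) :
    ∑ a : Fin 3 × Fin m, g a.1 = (m : ℝ) * (g 0 + g 1 + g 2) := by
  rw [Fintype.sum_prod_type, Fin.sum_univ_three]
  simp only [sum_const, card_univ, Fintype.card_fin, nsmul_eq_mul]
  ring

theorem cyc_arcs (m : ℕ) : arcs (cyc m) = 3 * m ^ 2 := by
  have e : (arcs (cyc m) : ℝ) = ∑ u : Fin 3 × Fin m, ∑ v : Fin 3 × Fin m,
      (if v.1 = u.1 + 1 then (1 : ℝ) else 0) := by
    unfold arcs cyc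
    rw [Finset.card_filter, Nat.cast_sum, Fintype.sum_prod_type]
    refine sum_congr rfl fun u _ => sum_congr rfl fun v _ => ?_
    split_ifs <;> simp
  have e2 : (arcs (cyc m) : ℝ) = ((3 * m ^ 2 : ℕ) : ℝ) := by
    rw [e]
    have h : ∀ u : Fin 3 × Fin m, ∑ v : Fin 3 × Fin m, (if v.1 = u.1 + 1 then (1 : ℝ) else 0)
        = (fun _ => (m : ℝ)) u.1 := by
      intro u
      rw [sum_fst m (fun y => if y = u.1 + 1 then (1 : ℝ) else 0)]
      have : ∀ x : Fin 3, (if (0 : Fin 3) = x + 1 then (1 : ℝ) else 0)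
          + (if (1 : Fin 3) = x + 1 then (1 : ℝ) else 0)
          + (if (2 : Fin 3) = x + 1 then (1 : ℝ) else 0) = 1 := by
        intro x
        fin_cases x <;> simp <;> norm_num
      rw [this]
      ring
    simp_rw [h]
    rw [sum_fst m (fun _ => (m : ℝ))]
    push_cast
    ring
  exact_mod_cast e2

theorem cyc_H (m : ℕ) :
    ∑ a : Fin 3 × Fin m, ∑ b : Fin 3 × Fin m, ∑ c : Fin 3 × Fin m, H (cyc m) a b c
      = 12 * (m : ℝ) ^ 3 := by
  let F : Fin 3 → Fin 3 → Fin 3 → ℝ := fun x y z =>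
    if (x = y ∧ z ≠ x + 1) ∨ (x = z ∧ y ≠ x + 1) ∨ (y = z ∧ x ≠ y + 1) then 1 else 0
  have e : ∀ a b c : Fin 3 × Fin m, H (cyc m) a b c = F a.1 b.1 c.1 := by
    rintro ⟨a, i⟩ ⟨b, j⟩ ⟨c, k⟩
    simp only [F]
    unfold H N A cyc
    simp only
    fin_cases a <;> fin_cases b <;> fin_cases c <;> simp <;> norm_num
  have h1 : ∀ a b : Fin 3 × Fin m, ∑ c : Fin 3 × Fin m, H (cyc m) a b c =
      (fun y => (m : ℝ) * (F a.1 y 0 + F a.1 y 1 + F a.1 y 2)) b.1 := by
    intro a b
    simp_rw [e]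
    exact sum_fst m (fun z => F a.1 b.1 z)
  have h2 : ∀ a : Fin 3 × Fin m, ∑ b : Fin 3 × Fin m, ∑ c : Fin 3 × Fin m, H (cyc m) a b c =
      (fun x => (m : ℝ) * ((m : ℝ) * (F x 0 0 + F x 0 1 + F x 0 2)
        + (m : ℝ) * (F x 1 0 + F x 1 1 + F x 1 2)
        + (m : ℝ) * (F x 2 0 + F x 2 1 + F x 2 2))) a.1 := by
    intro a
    simp_rw [h1]
    exact sum_fst m (fun y => (m : ℝ) * (F a.1 y 0 + F a.1 y 1 + F a.1 y 2))
  rw [Finset.sum_congr rfl fun a _ => h2 a]
  rw [sum_fst m (fun x => (m : ℝ) * ((m : ℝ) * (F x 0 0 + F x 0 1 + F x 0 2)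
        + (m : ℝ) * (F x 1 0 + F x 1 1 + F x 1 2)
        + (m : ℝ) * (F x 2 0 + F x 2 1 + F x 2 2)))]
  simp only [F]
  simp
  norm_num [Fin.ext_iff]
  ring

/-- Equality for the balanced blow-ups of the cyclic triangle. -/
theorem cyc_edges (m : ℕ) : (edges (cyc m)).card = m * (m - 1) * (2 * m - 1) := by
  have h := sum_one (cyc m) (cyc_oriented m)
  rw [cyc_H, cyc_arcs] at h
  simp only [Fintype.card_prod, Fintype.card_fin] at h
  rcases Nat.eq_zero_or_pos m with h0 | hm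
  · subst h0
    have h2 : ((edges (cyc 0)).card : ℝ) = 0 := by
      push_cast at h
      linarith
    have h3 : (edges (cyc 0)).card = 0 := by exact_mod_cast h2
    rw [h3]
  · obtain ⟨k, rfl⟩ : ∃ k, m = k + 1 := ⟨m - 1, by omega⟩
    have e : ((edges (cyc (k + 1))).card : ℝ) = (k + 1) * k * (2 * k + 1) := by
      push_cast at h
      linarith
    have e2 : 2 * (k + 1) - 1 = 2 * k + 1 := by omega
    rw [e2, Nat.add_sub_cancel]
    exact_mod_cast e

end Pool.Agent.KS6_36.FDF
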